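import Pool.Agent.Helper76.TL.StC7

/-!
# Project TL, module UBE7: the upper bound for new twisted symbols of level `7^n`
-/

set_option autoImplicit false

open Pool.Agent.Helper14.CV (Homog EqC act StFar)
open Pool.Agent.Helper76.TL7 Pool.Agent.Helper4.TL Pool.Agent.Helper76.S7

namespace Pool.Agent.Helper68.TL

/-- A function `edgeE7` of the transported potential as a linear map. -/
private noncomputable def Le (μ k m : ℕ) (u1 u2 v1 v2 : ℤ) :
    (ℤ → ℤ → ℂ) →ₗ[ℂ] (Pt m → ℂ) where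
  toFun G := fun p : Pt m => edgeE7 μ u1 u2 v1 v2 (act 1 0 0 (7 ^ k) G) p.1 p.2
  map_add' G H := by
    funext p
    simp only [edgeE7, edge7, act, Pi.add_apply, zsmul_eq_mul]
    ring
  map_smul' c G := by
    funext p
    simp only [edgeE7, edge7, act, Pi.smul_apply, smul_eq_mul, RingHom.id_apply, zsmul_eq_mul]
    ring

private theorem build (n D : ℕ) {W : Type} [AddCommGroup W] [Module ℂ W] [Module.Finite ℂ W]
    (hW : Module.finrank ℂ W ≤ D) (L : NSE 7 n →ₗ[ℂ] W)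
    (hinj : ∀ G : NSE 7 n, L G = 0 → EqC (G : ℤ → ℤ → ℂ) 0) :
    ∃ Θ : NSE 7 n →ₗ[ℂ] (Fin D → ℂ), ∀ G : NSE 7 n, Θ G = 0 → EqC (G : ℤ → ℤ → ℂ) 0 := by
  have h0 : Module.finrank ℂ W ≤ Module.finrank ℂ (Fin D → ℂ) := by simpa using hW
  obtain ⟨e, he⟩ := finrank_le_iff_exists_linearMap.1 h0
  refine ⟨e.comp L, fun G hG => hinj G ?_⟩
  apply he
  rw [map_zero]
  exact hG

/-- The four functions for even exponents. -/
private noncomputable def Lev (k : ℕ) :
    (ℤ → ℤ → ℂ) →ₗ[ℂ] (((Pt (k - 1) → ℂ) × (Pt (k - 1) → ℂ)) ×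
      ((Pt (k - 1) → ℂ) × (Pt (k - 1) → ℂ))) :=
  ((Le 1 k (k - 1) 1 0 1 1).prod (Le 1 k (k - 1) 1 1 4 3)).prod
    ((Le 1 k (k - 1) 4 3 2 1).prod (Le 1 k (k - 1) 2 1 3 1))

/-- The two functions for odd exponents. -/
private noncomputable def Lod (k : ℕ) : (ℤ → ℤ → ℂ) →ₗ[ℂ] ((Pt k → ℂ) × (Pt k → ℂ)) :=
  (Le 0 k k 1 0 0 1).prod (Le 0 k k 1 0 1 2)

/-- MODULE UBE7 -/
theorem hUBE7 : StEUB7 := by
  intro hBal hE1 hO1 hDimE hDimO n hn
  rcases Nat.even_or_odd' n with ⟨k, hk | hk⟩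
  · -- even exponent
    subst hk
    have hk2 : 2 ≤ k := by omega
    have key : ∀ G ∈ NSE 7 (2 * k), Lev k G ∈ subEE7 (k - 1) ∧ (Lev k G = 0 → EqC G 0) := by
      intro G hG
      have hN : NewSymE 7 (2 * k) G := hG
      have hB := (hBal k G (by omega)).1 hN
      obtain ⟨a1, a2⟩ := hE1 k _ hk2 hB
      refine ⟨a1, fun h0 => ?_⟩
      have h1 := congrArg (fun z => z.1.1) h0
      have h2 := congrArg (fun z => z.1.2) h0
      have h3 := congrArg (fun z => z.2.1) h0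
      have h4 := congrArg (fun z => z.2.2) h0
      have h5 := a2 (fun x y => ⟨congrFun h1 (x, y), congrFun h2 (x, y), congrFun h3 (x, y),
        congrFun h4 (x, y)⟩)
      exact (hBal k G (by omega)).2.2 hN.1.1 h5
    have hd : ddE7 (2 * k) = 84 * 49 ^ (k - 2) + 6 * 7 ^ (k - 2) := by
      have h2k : 2 * k / 2 = k := by omega
      unfold ddE7
      rw [if_neg (by omega), h2k]
    rw [hd]
    let L1 : NSE 7 (2 * k) →ₗ[ℂ] subEE7 (k - 1) :=
      ((Lev k).comp (NSE 7 (2 * k)).subtype).codRestrict (subEE7 (k - 1))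
        (fun G => (key G G.2).1)
    refine build (2 * k) _ ?_ L1 (fun G hG => ?_)
    · rw [hDimE (k - 1) (by omega)]
      have e : k - 1 - 1 = k - 2 := by omega
      rw [e]
    · exact (key G G.2).2 (congrArg Subtype.val hG)
  · -- odd exponent
    subst hk
    have hk1 : 1 ≤ k := by omega
    have key : ∀ G ∈ NSE 7 (2 * k + 1), Lod k G ∈ subOE7 k ∧ (Lod k G = 0 → EqC G 0) := by
      intro G hG
      have hN : NewSymE 7 (2 * k + 1) G := hG
      have hB := (hBal k G hk1).2.1 hN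
      obtain ⟨a1, a2⟩ := hO1 k _ hk1 hB
      refine ⟨a1, fun h0 => ?_⟩
      have h1 := congrArg Prod.fst h0
      have h2 := congrArg Prod.snd h0
      have h3 := a2 (fun x y => ⟨congrFun h1 (x, y), congrFun h2 (x, y)⟩)
      exact (hBal k G hk1).2.2 hN.1.1 h3
    have hd : ddE7 (2 * k + 1) = 12 * 49 ^ (k - 1) := by
      have h2k : (2 * k + 1) / 2 = k := by omega
      unfold ddE7
      rw [if_pos (by omega), h2k]
    rw [hd]
    let L1 : NSE 7 (2 * k + 1) →ₗ[ℂ] subOE7 k :=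
      ((Lod k).comp (NSE 7 (2 * k + 1)).subtype).codRestrict (subOE7 k)
        (fun G => (key G G.2).1)
    refine build (2 * k + 1) _ ?_ L1 (fun G hG => ?_)
    · rw [hDimO k hk1]
    · exact (key G G.2).2 (congrArg Subtype.val hG)

end Pool.Agent.Helper68.TL
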